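import Mathlib

/-!
# Expanders from random permutations

For every `n` there are `D` permutations of `Fin n` (`D` depends only on `β`) such that any two sets
with at least `β n` elements are joined by one of them.
-/

namespace Pool.Agent.TS2

open Finset Equiv

section Count

variable {α : Type} [Fintype α] [DecidableEq α]

/-- The permutations mapping `V` into the complement of `W`. -/
def avo (V W : Finset α) : Finset (Perm α) :=
  Finset.univ.filter fun g : Perm α => ∀ x ∈ V, g x ∉ W

lemma mem_avo {V W : Finset α} {g : Perm α} : g ∈ avo V W ↔ ∀ x ∈ V, g x ∉ W := by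
  simp [avo]

/-- Double counting. -/
lemma avo_step (V W : Finset α) (x : α) (hx : x ∉ V) :
    W.card * (avo V W).card ≤
      Fintype.card α * ((avo V W).filter fun g => g x ∈ W).card := by
  rw [← Finset.card_product, ← Finset.card_univ, ← Finset.card_product]
  refine Finset.card_le_card_of_injOn
    (fun p => (p.2 x, swap (p.2 x) p.1 * p.2)) ?_ ?_
  · rintro ⟨y, g⟩ hp
    have hp' := Finset.mem_product.1 (Finset.mem_coe.1 hp)
    have hy : y ∈ W := hp'.1
    have hg : ∀ z ∈ V, g z ∉ W := mem_avo.1 hp'.2
    refine Finset.mem_coe.2 (Finset.mem_product.2 ⟨Finset.mem_univ _, ?_⟩)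
    rw [Finset.mem_filter, mem_avo]
    refine ⟨?_, ?_⟩
    · intro z hz
      simp only [Perm.mul_apply]
      have h1 : g z ≠ g x := fun h => hx (g.injective h ▸ hz)
      have h2 : g z ≠ y := fun h => hg z hz (h ▸ hy)
      rw [swap_apply_of_ne_of_ne h1 h2]
      exact hg z hz
    · simp only [Perm.mul_apply, swap_apply_left]
      exact hy
  · rintro ⟨y, g⟩ _ ⟨y', g'⟩ _ h
    simp only [Prod.mk.injEq] at h
    obtain ⟨h1, h2⟩ := h
    have h3 : y = y' := by
      have := congrArg (fun σ : Perm α => σ x) h2
      simpa using this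
    subst h3
    rw [h1] at h2
    exact Prod.ext rfl (mul_left_cancel h2)

lemma avo_insert (V W : Finset α) (x : α) (hx : x ∉ V) :
    (avo (insert x V) W).card + ((avo V W).filter fun g => g x ∈ W).card = (avo V W).card := by
  have h1 : avo (insert x V) W = (avo V W).filter fun g => ¬ g x ∈ W := by
    ext g
    simp only [mem_filter, mem_avo, Finset.mem_insert, forall_eq_or_imp]
    tauto
  rw [h1, add_comm]
  exact Finset.card_filter_add_card_filter_not (s := avo V W) (fun g => g x ∈ W)

lemma avo_le (hα : 0 < Fintype.card α) (V W : Finset α) :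
    ((avo V W).card : ℝ) ≤
      (Fintype.card α).factorial * (1 - (W.card : ℝ) / Fintype.card α) ^ V.card := by
  have hn : (0 : ℝ) < Fintype.card α := by exact_mod_cast hα
  have hW : (W.card : ℝ) ≤ Fintype.card α := by exact_mod_cast Finset.card_le_univ W
  have h0 : 0 ≤ 1 - (W.card : ℝ) / Fintype.card α := by
    rw [sub_nonneg, div_le_one hn]
    exact hW
  induction V using Finset.induction_on with
  | empty =>
    simp only [Finset.card_empty, pow_zero, mul_one]
    have h1 : (avo (∅ : Finset α) W).card ≤ Fintype.card (Perm α) := Finset.card_le_univ _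
    rw [Fintype.card_perm] at h1
    exact_mod_cast h1
  | insert x V hx ih =>
    rw [Finset.card_insert_of_notMem hx, pow_succ, ← mul_assoc]
    have h1 : (W.card : ℝ) * (avo V W).card ≤
        Fintype.card α * ((avo V W).filter fun g => g x ∈ W).card := by
      exact_mod_cast avo_step V W x hx
    have h2 : ((avo (insert x V) W).card : ℝ) + ((avo V W).filter fun g => g x ∈ W).card =
        (avo V W).card := by exact_mod_cast avo_insert V W x hx
    have h3 : ((avo (insert x V) W).card : ℝ) ≤
        (avo V W).card * (1 - (W.card : ℝ) / Fintype.card α) := by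
      have h4 : (W.card : ℝ) * (avo V W).card / Fintype.card α ≤
          ((avo V W).filter fun g => g x ∈ W).card := by
        rw [div_le_iff₀ hn]
        linarith
      have h5 : ((avo V W).card : ℝ) * (1 - (W.card : ℝ) / Fintype.card α) =
          (avo V W).card - (W.card : ℝ) * (avo V W).card / Fintype.card α := by ring
      rw [h5]
      linarith
    exact h3.trans (mul_le_mul_of_nonneg_right ih h0)

lemma avo_exp (hα : 0 < Fintype.card α) (V W : Finset α) :
    ((avo V W).card : ℝ) ≤ (Fintype.card α).factorial *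
      Real.exp (-((W.card : ℝ) * V.card / Fintype.card α)) := by
  have hn : (0 : ℝ) < Fintype.card α := by exact_mod_cast hα
  have hW : (W.card : ℝ) ≤ Fintype.card α := by exact_mod_cast Finset.card_le_univ W
  have h0 : 0 ≤ 1 - (W.card : ℝ) / Fintype.card α := by
    rw [sub_nonneg, div_le_one hn]
    exact hW
  refine (avo_le hα V W).trans ?_
  apply mul_le_mul_of_nonneg_left _ (by positivity)
  have h1 : (1 - (W.card : ℝ) / Fintype.card α) ≤ Real.exp (-((W.card : ℝ) / Fintype.card α)) := by
    have := Real.add_one_le_exp (-((W.card : ℝ) / Fintype.card α))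
    linarith
  refine (pow_le_pow_left₀ h0 h1 _).trans (le_of_eq ?_)
  rw [← Real.exp_nat_mul]
  congr 1
  ring

end Count

/-- Existence of expanders made of permutations. -/
theorem exists_expander (α : Type) [Fintype α] [DecidableEq α] (hα : 0 < Fintype.card α)
    (β : ℝ) (hβ : 0 < β) (D : ℕ) (hD : Real.log 4 < D * β ^ 2) :
    ∃ σ : Fin D → Perm α, ∀ V W : Finset α, β * Fintype.card α ≤ V.card →
      β * Fintype.card α ≤ W.card → ∃ k, ∃ x ∈ V, σ k x ∈ W := by
  classical
  have hn : (0 : ℝ) < Fintype.card α := by exact_mod_cast hα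
  by_contra hcon
  push Not at hcon
  -- all tuples are bad for some pair
  set big : Finset (Finset α × Finset α) := Finset.univ.filter fun p =>
    β * Fintype.card α ≤ p.1.card ∧ β * Fintype.card α ≤ p.2.card with hbig
  have hcover : (Finset.univ : Finset (Fin D → Perm α)) ⊆
      big.biUnion fun p => Fintype.piFinset fun _ => avo p.1 p.2 := by
    intro σ _
    obtain ⟨V, W, hV, hW, h⟩ := hcon σ
    rw [Finset.mem_biUnion]
    refine ⟨(V, W), ?_, ?_⟩
    · rw [hbig, Finset.mem_filter]
      exact ⟨Finset.mem_univ _, hV, hW⟩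
    · rw [Fintype.mem_piFinset]
      intro k
      rw [mem_avo]
      exact h k
  have h1 := (Finset.card_le_card hcover).trans Finset.card_biUnion_le
  rw [Finset.card_univ, Fintype.card_fun, Fintype.card_perm, Fintype.card_fin] at h1
  have h2 : ∀ p ∈ big, ((Fintype.piFinset fun _ : Fin D => avo p.1 p.2).card : ℝ) ≤
      ((Fintype.card α).factorial : ℝ) ^ D *
        Real.exp (-(D * β ^ 2 * Fintype.card α)) := by
    intro p hp
    rw [hbig, Finset.mem_filter] at hp
    obtain ⟨_, hV, hW⟩ := hp
    rw [Fintype.card_piFinset, Finset.prod_const, Finset.card_univ, Fintype.card_fin]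
    push_cast
    refine (pow_le_pow_left₀ (by positivity) (avo_exp hα p.1 p.2) D).trans ?_
    rw [mul_pow, ← Real.exp_nat_mul]
    apply mul_le_mul_of_nonneg_left _ (by positivity)
    apply Real.exp_le_exp.2
    have h3 : (β * Fintype.card α) * (β * Fintype.card α) ≤ (p.2.card : ℝ) * p.1.card :=
      mul_le_mul hW hV (by positivity) (by positivity)
    have h4 : β ^ 2 * Fintype.card α ≤ (p.2.card : ℝ) * p.1.card / Fintype.card α := by
      rw [le_div_iff₀ hn]
      calc β ^ 2 * Fintype.card α * Fintype.card α =
          (β * Fintype.card α) * (β * Fintype.card α) := by ring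
        _ ≤ _ := h3
    have h5 : (D : ℝ) * (β ^ 2 * Fintype.card α) ≤
        D * ((p.2.card : ℝ) * p.1.card / Fintype.card α) :=
      mul_le_mul_of_nonneg_left h4 (by positivity)
    calc (D : ℝ) * -((p.2.card : ℝ) * p.1.card / Fintype.card α) =
        -(D * ((p.2.card : ℝ) * p.1.card / Fintype.card α)) := by ring
      _ ≤ -(D * (β ^ 2 * Fintype.card α)) := by linarith
      _ = _ := by ring
  have h3 : (big.card : ℝ) ≤ (4 : ℝ) ^ Fintype.card α := by
    have h4 : big.card ≤ Fintype.card (Finset α × Finset α) := Finset.card_le_univ _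
    rw [Fintype.card_prod, Fintype.card_finset] at h4
    have h5 : (big.card : ℝ) ≤ (2 : ℝ) ^ Fintype.card α * (2 : ℝ) ^ Fintype.card α := by
      exact_mod_cast h4
    refine h5.trans (le_of_eq ?_)
    rw [← mul_pow]
    norm_num
  have h4 : (((Fintype.card α).factorial : ℝ)) ^ D ≤
      (4 : ℝ) ^ Fintype.card α * (((Fintype.card α).factorial : ℝ) ^ D *
        Real.exp (-(D * β ^ 2 * Fintype.card α))) := by
    calc (((Fintype.card α).factorial : ℝ)) ^ D =
        (((Fintype.card α).factorial ^ D : ℕ) : ℝ) := by push_cast; rfl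
      _ ≤ ((∑ p ∈ big, (Fintype.piFinset fun _ : Fin D => avo p.1 p.2).card : ℕ) : ℝ) := by
          exact_mod_cast h1
      _ = ∑ p ∈ big, ((Fintype.piFinset fun _ : Fin D => avo p.1 p.2).card : ℝ) := by
          push_cast
          rfl
      _ ≤ ∑ _p ∈ big, (((Fintype.card α).factorial : ℝ) ^ D *
            Real.exp (-(D * β ^ 2 * Fintype.card α))) := Finset.sum_le_sum h2
      _ = big.card * (((Fintype.card α).factorial : ℝ) ^ D *
            Real.exp (-(D * β ^ 2 * Fintype.card α))) := by
          rw [Finset.sum_const, nsmul_eq_mul]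
      _ ≤ _ := mul_le_mul_of_nonneg_right h3 (by positivity)
  have h5 : (0 : ℝ) < ((Fintype.card α).factorial : ℝ) ^ D := by positivity
  have h6 : (1 : ℝ) ≤ (4 : ℝ) ^ Fintype.card α *
      Real.exp (-(D * β ^ 2 * Fintype.card α)) := by
    have h7 : ((Fintype.card α).factorial : ℝ) ^ D * 1 ≤ ((Fintype.card α).factorial : ℝ) ^ D *
        ((4 : ℝ) ^ Fintype.card α * Real.exp (-(D * β ^ 2 * Fintype.card α))) := by
      calc _ = ((Fintype.card α).factorial : ℝ) ^ D := mul_one _
        _ ≤ _ := h4
        _ = _ := by ring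
    exact le_of_mul_le_mul_left h7 h5
  have h7 : (4 : ℝ) ^ Fintype.card α = Real.exp (Fintype.card α * Real.log 4) := by
    rw [Real.exp_nat_mul, Real.exp_log (by norm_num)]
  rw [h7, ← Real.exp_add, Real.one_le_exp_iff] at h6
  have h8 := mul_lt_mul_of_pos_right hD hn
  linarith

end Pool.Agent.TS2
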