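import Mathlib
import Pool.Agent.Lib_helper21.TS.Bound
import Pool.Agent.Lib_helper21.TS2.PermExp

/-!
# The product of two expanders made of permutations
-/

namespace Pool.Agent.TS2

open Finset Equiv Pool.Agent.TS

variable {B U : Type} {D : ℕ}

/-- The product relation. -/
def EP (σ : Fin D → Perm B) (τ : Fin D → Perm U) (x y : B × U) : Prop :=
  ∃ k l, y = (σ k x.1, τ l x.2)

lemma EP_row {J : Type} [Fintype U] (σ : Fin D → Perm B) (τ : Fin D → Perm U)
    (π : J × B → Perm U) (κ : J × B) (u : U) [DecidablePred (forb (EP σ τ) π κ u)] :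
    (Finset.univ.filter fun v => forb (EP σ τ) π κ u v).card ≤ D ^ 2 := by
  classical
  have h1 : (Finset.univ.filter fun v => forb (EP σ τ) π κ u v) ⊆
      (Finset.univ : Finset (Fin D × Fin D)).image fun p =>
        τ p.2 (π (κ.1, (σ p.1).symm κ.2) u) := by
    intro v hv
    obtain ⟨b, k, l, hkl⟩ := (Finset.mem_filter.1 hv).2
    rw [Finset.mem_image]
    refine ⟨(k, l), Finset.mem_univ _, ?_⟩
    have h1 := congrArg Prod.fst hkl
    have h2 := congrArg Prod.snd hkl
    simp only at h1 h2
    rw [h2, h1, Equiv.symm_apply_apply]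
  refine ((Finset.card_le_card h1).trans Finset.card_image_le).trans ?_
  rw [Finset.card_univ, Fintype.card_prod, Fintype.card_fin, sq]

lemma EP_col {J : Type} [Fintype U] (σ : Fin D → Perm B) (τ : Fin D → Perm U)
    (π : J × B → Perm U) (κ : J × B) (v : U) [DecidablePred fun u => forb (EP σ τ) π κ u v] :
    (Finset.univ.filter fun u => forb (EP σ τ) π κ u v).card ≤ D ^ 2 := by
  classical
  have h1 : (Finset.univ.filter fun u => forb (EP σ τ) π κ u v) ⊆
      (Finset.univ : Finset (Fin D × Fin D)).image fun p =>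
        (π (κ.1, (σ p.1).symm κ.2)).symm ((τ p.2).symm v) := by
    intro u hu
    obtain ⟨b, k, l, hkl⟩ := (Finset.mem_filter.1 hu).2
    rw [Finset.mem_image]
    refine ⟨(k, l), Finset.mem_univ _, ?_⟩
    have h1 := congrArg Prod.fst hkl
    have h2 := congrArg Prod.snd hkl
    simp only at h1 h2
    rw [h2, h1, Equiv.symm_apply_apply, Equiv.symm_apply_apply, Equiv.symm_apply_apply]
  refine ((Finset.card_le_card h1).trans Finset.card_image_le).trans ?_
  rw [Finset.card_univ, Fintype.card_prod, Fintype.card_fin, sq]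

lemma EP_card [Fintype B] [Fintype U] (σ : Fin D → Perm B) (τ : Fin D → Perm U)
    [DecidablePred fun p : (B × U) × (B × U) => EP σ τ p.1 p.2] :
    (Finset.univ.filter fun p : (B × U) × (B × U) => EP σ τ p.1 p.2).card ≤
      Fintype.card B * Fintype.card U * D ^ 2 := by
  classical
  have h1 : (Finset.univ.filter fun p : (B × U) × (B × U) => EP σ τ p.1 p.2) ⊆
      (Finset.univ : Finset ((B × U) × (Fin D × Fin D))).image fun p =>
        (p.1, (σ p.2.1 p.1.1, τ p.2.2 p.1.2)) := by
    rintro ⟨x, y⟩ hp
    obtain ⟨k, l, hkl⟩ := (Finset.mem_filter.1 hp).2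
    rw [Finset.mem_image]
    refine ⟨(x, (k, l)), Finset.mem_univ _, ?_⟩
    simp only at hkl
    rw [hkl]
  refine ((Finset.card_le_card h1).trans Finset.card_image_le).trans (le_of_eq ?_)
  rw [Finset.card_univ, Fintype.card_prod, Fintype.card_prod, Fintype.card_prod, Fintype.card_fin,
    sq]

section Mix

variable [Fintype B] [Fintype U] [DecidableEq B] [DecidableEq U]

/-- The fibre of a set over a block. -/
def fib (V : Finset (B × U)) (b : B) : Finset U := Finset.univ.filter fun u => (b, u) ∈ V

lemma mem_fib {V : Finset (B × U)} {b : B} {u : U} : u ∈ fib V b ↔ (b, u) ∈ V := by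
  simp [fib]

lemma card_eq_sum_fib (V : Finset (B × U)) : V.card = ∑ b, (fib V b).card := by
  classical
  have h1 : V.card = ∑ p : B × U, if p ∈ V then 1 else 0 := by
    rw [← Finset.card_filter]
    congr 1
    ext p
    simp
  rw [h1, Fintype.sum_prod_type]
  refine Finset.sum_congr rfl fun b _ => ?_
  rw [fib, Finset.card_filter]

/-- The blocks with many elements of `V`. -/
noncomputable def heavy (β : ℝ) (V : Finset (B × U)) : Finset B := by
  classical
  exact Finset.univ.filter fun b => β * Fintype.card U ≤ ((fib V b).card : ℝ)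

lemma mem_heavy {β : ℝ} {V : Finset (B × U)} {b : B} :
    b ∈ heavy β V ↔ β * Fintype.card U ≤ ((fib V b).card : ℝ) := by
  classical
  simp [heavy]

lemma heavy_card (hU : 0 < Fintype.card U) {β : ℝ} (hβ : 0 < β) (V : Finset (B × U))
    (hV : 2 * β * (Fintype.card B * Fintype.card U) ≤ (V.card : ℝ)) :
    β * Fintype.card B ≤ ((heavy β V).card : ℝ) := by
  classical
  have hw : (0 : ℝ) < Fintype.card U := by exact_mod_cast hU
  have h1 : (V.card : ℝ) ≤ ∑ b, ((if b ∈ heavy β V then (Fintype.card U : ℝ) else 0) +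
      β * Fintype.card U) := by
    rw [card_eq_sum_fib V]
    push_cast
    refine Finset.sum_le_sum fun b _ => ?_
    split_ifs with hb
    · have h2 : ((fib V b).card : ℝ) ≤ Fintype.card U := by
        exact_mod_cast Finset.card_le_univ _
      have : 0 ≤ β * Fintype.card U := by positivity
      linarith
    · rw [mem_heavy] at hb
      linarith
  rw [Finset.sum_add_distrib, Finset.sum_const, Finset.card_univ, nsmul_eq_mul] at h1
  have h2 : ∑ b, (if b ∈ heavy β V then (Fintype.card U : ℝ) else 0) =
      (heavy β V).card * Fintype.card U := by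
    rw [Finset.sum_ite_mem, Finset.univ_inter, Finset.sum_const, nsmul_eq_mul]
  rw [h2] at h1
  have h3 : β * Fintype.card B * Fintype.card U ≤ (heavy β V).card * Fintype.card U := by
    linarith
  exact le_of_mul_le_mul_right h3 hw

/-- Mixing. -/
lemma EP_mix (hU : 0 < Fintype.card U) {β : ℝ} (hβ : 0 < β) (σ : Fin D → Perm B)
    (τ : Fin D → Perm U)
    (hσ : ∀ V W : Finset B, β * Fintype.card B ≤ V.card → β * Fintype.card B ≤ W.card →
      ∃ k, ∃ x ∈ V, σ k x ∈ W)
    (hτ : ∀ V W : Finset U, β * Fintype.card U ≤ V.card → β * Fintype.card U ≤ W.card →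
      ∃ k, ∃ x ∈ V, τ k x ∈ W) (V W : Finset (B × U))
    (hVW : ∀ x ∈ V, ∀ y ∈ W, ¬ EP σ τ x y) :
    (V.card : ℝ) * W.card ≤ 2 * β * (Fintype.card B * Fintype.card U) ^ 2 := by
  have hV : (V.card : ℝ) ≤ Fintype.card B * Fintype.card U := by
    have := Finset.card_le_univ V
    rw [Fintype.card_prod] at this
    exact_mod_cast this
  have hW : (W.card : ℝ) ≤ Fintype.card B * Fintype.card U := by
    have := Finset.card_le_univ W
    rw [Fintype.card_prod] at this
    exact_mod_cast this
  by_cases h1 : 2 * β * (Fintype.card B * Fintype.card U) ≤ (V.card : ℝ)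
  · by_cases h2 : 2 * β * (Fintype.card B * Fintype.card U) ≤ (W.card : ℝ)
    · exfalso
      obtain ⟨k, b, hb, hc⟩ := hσ _ _ (heavy_card hU hβ V h1) (heavy_card hU hβ W h2)
      rw [mem_heavy] at hb hc
      obtain ⟨l, u, hu, hv⟩ := hτ _ _ hb hc
      rw [mem_fib] at hu hv
      exact hVW _ hu _ hv ⟨k, l, rfl⟩
    · push Not at h2
      calc (V.card : ℝ) * W.card ≤ (Fintype.card B * Fintype.card U) *
            (2 * β * (Fintype.card B * Fintype.card U)) :=
            mul_le_mul hV h2.le (by positivity) (by positivity)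
        _ = _ := by ring
  · push Not at h1
    calc (V.card : ℝ) * W.card ≤ (2 * β * (Fintype.card B * Fintype.card U)) *
          (Fintype.card B * Fintype.card U) :=
          mul_le_mul h1.le hW (by positivity) (by positivity)
      _ = _ := by ring

end Mix

end Pool.Agent.TS2
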