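import Mathlib
import Pool.Agent.Lib_helper21.TS.Bound
import Pool.Agent.Lib_helper21.TS2.Rel

/-!
# The finite form of the lower bound, with all parameters free
-/

namespace Pool.Agent.TS2

open Finset Equiv Pool.Agent.TS

lemma choose_le_exp (N m : ℕ) (c : ℝ) (hc : 0 < c) (hm : (N : ℝ) ≤ c * m) :
    (N.choose m : ℝ) ≤ Real.exp (m + m * Real.log c) := by
  have h1 : (N.choose m : ℝ) ≤ (N : ℝ) ^ m / m.factorial := Nat.choose_le_pow_div m N
  have h2 := pow_le_exp_mul_factorial m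
  have h3 : (0 : ℝ) < m.factorial := by positivity
  calc (N.choose m : ℝ) ≤ (N : ℝ) ^ m / m.factorial := h1
    _ ≤ (c * m) ^ m / m.factorial := by gcongr
    _ = c ^ m * ((m : ℝ) ^ m / m.factorial) := by rw [mul_pow, mul_div_assoc]
    _ ≤ c ^ m * Real.exp m := by
        apply mul_le_mul_of_nonneg_left _ (by positivity)
        rw [div_le_iff₀ h3]
        exact h2
    _ = Real.exp (m + m * Real.log c) := by
        rw [Real.exp_add, mul_comm (m : ℝ) (Real.log c), ← Real.rpow_def_of_pos hc,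
          Real.rpow_natCast, mul_comm]

lemma log_le_two_sqrt (x : ℝ) (hx : 0 < x) : Real.log x ≤ 2 * Real.sqrt x := by
  have h1 : Real.log x = 2 * Real.log (Real.sqrt x) := by
    rw [Real.log_sqrt hx.le]; ring
  rw [h1]
  have := Real.log_le_sub_one_of_pos (Real.sqrt_pos.2 hx)
  linarith

lemma logb_le_self {h : ℝ} (h0 : 0 < h) : Real.logb 2 h ≤ h := by
  rw [Real.logb, div_le_iff₀ (Real.log_pos (by norm_num))]
  have h1 := Real.log_le_sub_one_of_pos (show (0 : ℝ) < h / 2 by positivity)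
  rw [Real.log_div h0.ne' (by norm_num)] at h1
  have h2 : Real.log 2 > 0.6931471803 := Real.log_two_gt_d9
  have h3 : Real.log 2 < 0.6931471808 := Real.log_two_lt_d9
  nlinarith

lemma aux256 {D k : ℝ} (hD : 1 ≤ D) (hk : 1 ≤ k) : 256 ≤ 256 * D * k := by
  have : 1 ≤ D * k := one_le_mul_of_one_le_of_one_le hD hk
  linarith

lemma auxL {d k L : ℝ} (hk : 0 < k) (h1 : 1 ≤ L) (h2 : d < (L + 1) * (4 * k)) :
    d / (8 * k) ≤ L := by
  rw [div_le_iff₀ (by positivity)]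
  have h3 : 1 * (4 * k) ≤ L * (4 * k) := mul_le_mul_of_nonneg_right h1 (by positivity)
  linarith

lemma auxy {h D w d t y : ℝ} (hh : 1 ≤ h) (hD : 1 ≤ D) (ht : 1 ≤ t) (hd : 8 * h ^ 2 ≤ d)
    (hw : (256 * D * h ^ 2) ^ 2 ≤ w) (hw0 : 0 < w) (hy : y = t * d * w) :
    1 ≤ h * y ∧ (128 : ℝ) ^ 2 * 2 * h ^ 5 ≤ y := by
  have hd0 : 0 < d := lt_of_lt_of_le (by positivity) hd
  have h1 : (256 : ℝ) ^ 2 * h ^ 4 ≤ w := by
    refine le_trans ?_ hw
    have h3 : 256 * h ^ 2 * 1 ≤ 256 * h ^ 2 * D := mul_le_mul_of_nonneg_left hD (by positivity)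
    calc (256 : ℝ) ^ 2 * h ^ 4 = (256 * h ^ 2) ^ 2 := by ring
      _ ≤ _ := pow_le_pow_left₀ (by positivity) (by linarith) 2
  have hy1 : (256 : ℝ) ^ 2 * h ^ 4 * (8 * h ^ 2) ≤ y := by
    calc (256 : ℝ) ^ 2 * h ^ 4 * (8 * h ^ 2) ≤ w * d :=
          mul_le_mul h1 hd (by positivity) hw0.le
      _ ≤ t * (w * d) := le_mul_of_one_le_left (by positivity) ht
      _ = y := by rw [hy]; ring
  have h9 : h ^ 5 ≤ h ^ 6 := pow_le_pow_right₀ hh (by norm_num)
  have h11 : 1 ≤ h ^ 6 := one_le_pow₀ hh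
  have hy3 : (256 : ℝ) ^ 2 * 8 * h ^ 6 ≤ y := by
    refine le_trans (le_of_eq ?_) hy1
    ring
  have h12 : 1 ≤ y := by linarith
  exact ⟨one_le_mul_of_one_le_of_one_le hh h12, by linarith⟩

/-- The mixing parameter. -/
noncomputable def bet (h : ℕ) : ℝ := 1 / (2 ^ 35 * (h : ℝ) ^ 10)

theorem no_machine2 (t d w D h : ℕ) (ht : 0 < t) (hh : 1 ≤ h) (hD : 1 ≤ D) (hd : 8 * h ^ 2 ≤ d)
    (hw : (256 * D * h ^ 2) ^ 2 ≤ w) {Q : Type} [Fintype Q] [DecidableEq Q]
    (E : Fin d × Fin w → Fin d × Fin w → Prop)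
    (hmix : ∀ V W : Finset (Fin d × Fin w), (∀ x ∈ V, ∀ y ∈ W, ¬ E x y) →
      (V.card : ℝ) * W.card ≤ (bet h ^ 2 * (d * w)) ^ 2)
    (hrow : ∀ (π : Fin t × Fin d → Perm (Fin w)) κ u, ∀ [DecidablePred (forb E π κ u)],
      (Finset.univ.filter fun v => forb E π κ u v).card ≤ D)
    (hcol : ∀ (π : Fin t × Fin d → Perm (Fin w)) κ v, ∀ [DecidablePred fun u => forb E π κ u v],
      (Finset.univ.filter fun u => forb E π κ u v).card ≤ D)
    (M : AM (Fin t) (Fin d) (Fin w) Q) (T : ℕ)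
    (hT : (T : ℝ) ≤ (t * d * w) * Real.logb 2 h)
    (hQ : Real.log (2 * Fintype.card Q) ≤ (d : ℝ) / (1024 * h ^ 5))
    (hacc : ∀ z : Inp (Fin t) (Fin d) (Fin w),
      (∃ T' ≤ T, ∃ p, M.Run T' z p) ↔ TFree E z.1 z.2) : False := by
  classical
  have hh' : (1 : ℝ) ≤ h := by exact_mod_cast hh
  have hh0 : (0 : ℝ) < h := by linarith
  have htR : (1 : ℝ) ≤ t := by exact_mod_cast ht
  have ht0 : (0 : ℝ) < t := by linarith
  have hDR : (1 : ℝ) ≤ D := by exact_mod_cast hD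
  have hh2 : (1 : ℝ) ≤ (h : ℝ) ^ 2 := one_le_pow₀ hh'
  have hdR : 8 * (h : ℝ) ^ 2 ≤ d := by exact_mod_cast hd
  have hd8 : (8 : ℝ) ≤ d := by linarith
  have hd0 : (0 : ℝ) < d := by linarith
  have hdN : 0 < d := by exact_mod_cast hd0
  have hwR : (256 * (D : ℝ) * h ^ 2) ^ 2 ≤ w := by exact_mod_cast hw
  have hw256 : (256 : ℝ) ≤ 256 * (D : ℝ) * h ^ 2 := aux256 hDR hh2
  have hw1 : (256 : ℝ) ^ 2 ≤ w := (pow_le_pow_left₀ (by norm_num) hw256 2).trans hwR
  have hw0 : (0 : ℝ) < w := by linarith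
  have hwN : 0 < w := by exact_mod_cast hw0
  obtain ⟨y, hy⟩ : ∃ y : ℝ, y = t * d * w := ⟨_, rfl⟩
  have hy0 : 0 < y := by rw [hy]; positivity
  rw [← hy] at hT
  -- parameters
  have hβ0 : 0 < bet h := by unfold bet; positivity
  set A0 : ℝ := 64 * h ^ 2 * bet h with hA0
  have hA00 : 0 < A0 := by positivity
  have hA0le : A0 ≤ Real.exp (-8) / (16 * h ^ 2) ^ 4 := by
    rw [le_div_iff₀ (by positivity), hA0, bet, Real.exp_neg]
    have h3 : Real.exp 8 ≤ 2 ^ 13 := by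
      have h4 : Real.exp 8 = Real.exp 1 ^ 8 := by rw [← Real.exp_nat_mul]; norm_num
      rw [h4]
      calc Real.exp 1 ^ 8 ≤ 3 ^ 8 := by
            apply pow_le_pow_left₀ (Real.exp_pos _).le
            have := Real.exp_one_lt_d9
            linarith
        _ ≤ 2 ^ 13 := by norm_num
    have h5 : (2 ^ 13 : ℝ)⁻¹ ≤ (Real.exp 8)⁻¹ := inv_anti₀ (Real.exp_pos _) h3
    refine le_trans (le_of_eq ?_) h5
    field_simp
    norm_num
  have h16 : (0 : ℝ) < 16 * (h : ℝ) ^ 2 := by positivity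
  have hlogA0 : Real.log A0 ≤ -(8 + 4 * Real.log (16 * h ^ 2)) := by
    have h1 := Real.log_le_log hA00 hA0le
    rw [Real.log_div (Real.exp_pos _).ne' (by positivity), Real.log_exp, Real.log_pow] at h1
    push_cast at h1
    linarith
  have hlog16 : 0 ≤ Real.log (16 * (h : ℝ) ^ 2) := Real.log_nonneg (by linarith)
  have hA01 : A0 ≤ 1 := by
    by_contra hcon
    push Not at hcon
    have := Real.log_pos hcon
    linarith
  have cI : Fintype.card (Fin t × Fin w) = t * w := by simp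
  have cK : Fintype.card (Fin t × Fin d) = t * d := by simp
  have cE : Fintype.card ((Fin t × Fin w) × Fin d) = t * w * d := by simp
  obtain ⟨n', hn'⟩ : ∃ n', n' = ⌈(Fintype.card (Fin t × Fin w) : ℝ) / (4 * h)⌉₊ := ⟨_, rfl⟩
  obtain ⟨d', hd'⟩ : ∃ d', d' = ⌈(Fintype.card (Fin d) : ℝ) / (4 * h)⌉₊ := ⟨_, rfl⟩
  have hn'ge : ((t : ℝ) * w) / (4 * h) ≤ n' := by
    have := Nat.le_ceil ((Fintype.card (Fin t × Fin w) : ℝ) / (4 * h))
    rw [← hn', cI] at this
    push_cast at this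
    exact this
  have hd'ge : (d : ℝ) / (4 * h) ≤ d' := by
    have := Nat.le_ceil ((Fintype.card (Fin d) : ℝ) / (4 * h))
    rw [← hd', Fintype.card_fin] at this
    exact this
  obtain ⟨m, hmdef⟩ : ∃ m : ℝ, m = ((n' * d' : ℕ) : ℝ) := ⟨_, rfl⟩
  have hm : y ≤ (16 * h ^ 2) * m := by
    have h1 : ((t : ℝ) * w) / (4 * h) * ((d : ℝ) / (4 * h)) ≤ (n' : ℝ) * d' :=
      mul_le_mul hn'ge hd'ge (by positivity) (by positivity)
    have h2 : ((t : ℝ) * w) / (4 * h) * ((d : ℝ) / (4 * h)) = y / (16 * h ^ 2) := by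
      rw [hy]; field_simp; ring
    rw [h2, div_le_iff₀ h16] at h1
    rw [hmdef]
    push_cast
    linarith
  have hm' : (n' : ℝ) * d' = m := by rw [hmdef]; push_cast; ring
  -- segments
  obtain ⟨r, hr⟩ : ∃ r, r = 8 * h ^ 3 * (t * w) := ⟨_, rfl⟩
  obtain ⟨L, hL⟩ : ∃ L, L = d / (4 * h ^ 2) := ⟨_, rfl⟩
  have hrR : (r : ℝ) = 8 * h ^ 3 * (t * w) := by rw [hr]; push_cast; ring
  have hL0 : 0 < L := by
    rw [hL]
    apply Nat.div_pos _ (by positivity)
    omega
  have hLle : (L : ℝ) ≤ (d : ℝ) / (4 * h ^ 2) := by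
    rw [hL]
    have := @Nat.cast_div_le ℝ _ _ _ d (4 * h ^ 2)
    push_cast at this ⊢
    exact this
  have hLge : (d : ℝ) / (8 * h ^ 2) ≤ L := by
    have h1 : d < (L + 1) * (4 * h ^ 2) := by
      rw [hL]
      have := Nat.lt_div_mul_add (a := d) (b := 4 * h ^ 2) (by positivity)
      rw [add_mul, one_mul]; exact this
    have h2 : ((d : ℕ) : ℝ) < ((L + 1) * (4 * h ^ 2) : ℕ) := by exact_mod_cast h1
    push_cast at h2
    have h3 : (1 : ℝ) ≤ L := by exact_mod_cast hL0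
    exact auxL (by positivity) h3 h2
  have hlogb : Real.logb 2 h ≤ h := logb_le_self hh0
  have hT2 : (T : ℝ) ≤ h * y := by
    refine hT.trans ?_
    rw [mul_comm (h : ℝ) y]
    exact mul_le_mul_of_nonneg_left hlogb hy0.le
  have hTr : T ≤ r * L := by
    have h1 : (T : ℝ) ≤ ((r * L : ℕ) : ℝ) := by
      push_cast
      rw [hrR]
      calc (T : ℝ) ≤ h * y := hT2
        _ = 8 * (h : ℝ) ^ 3 * (t * w) * ((d : ℝ) / (8 * h ^ 2)) := by
            rw [hy]; field_simp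
        _ ≤ _ := mul_le_mul_of_nonneg_left hLge (by positivity)
    exact_mod_cast h1
  have htot : (T : ℝ) ≤ Fintype.card (Fin t × Fin w) * Fintype.card (Fin d) *
      Real.logb 2 h := by
    rw [cI, Fintype.card_fin]
    push_cast
    calc (T : ℝ) ≤ _ := hT
      _ = _ := by rw [hy]; ring
  have hpair : (r * L ^ 2 : ℝ) ≤ Fintype.card (Fin t × Fin w) *
      (Fintype.card (Fin d)) ^ 2 / (2 * h) := by
    rw [cI, Fintype.card_fin, hrR]
    push_cast
    calc 8 * (h : ℝ) ^ 3 * (t * w) * (L : ℝ) ^ 2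
        ≤ 8 * (h : ℝ) ^ 3 * (t * w) * ((d : ℝ) / (4 * h ^ 2)) ^ 2 := by gcongr
      _ = _ := by field_simp; ring
  have hbig : 2 * bet h * (Fintype.card (Fin t) * Fintype.card (Fin w) *
      Fintype.card (Fin d)) ≤ (n' * d' : ℝ) / 2 * A0 := by
    rw [Fintype.card_fin, Fintype.card_fin, Fintype.card_fin, hm', hA0]
    calc 2 * bet h * ((t : ℝ) * w * d) = 2 * bet h * y := by rw [hy]; ring
      _ ≤ 2 * bet h * ((16 * h ^ 2) * m) := mul_le_mul_of_nonneg_left hm (by positivity)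
      _ = _ := by ring
  have h2D : 2 * D ≤ Fintype.card (Fin w) := by
    rw [Fintype.card_fin]
    refine le_trans ?_ hw
    have h1 : 1 ≤ h ^ 2 := Nat.one_le_pow _ _ hh
    have h2 : D ≤ D * h ^ 2 := Nat.le_mul_of_pos_right _ h1
    have h3 : 2 * D ≤ 256 * D * h ^ 2 := by
      have : 256 * D * h ^ 2 = 256 * (D * h ^ 2) := by ring
      omega
    exact h3.trans (Nat.le_self_pow (by norm_num) _)
  have key := machine_ineq (Q := Q) E (bet h) hβ0 (by
      intro V W hVW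
      rw [Fintype.card_fin, Fintype.card_fin]
      exact hmix V W hVW) D hrow hcol h2D
    (by rw [Fintype.card_fin]; exact hwN) (by rw [Fintype.card_fin]; exact hdN) M T L r hL0 hTr h
    hh' htot hpair n' d' hn' hd' A0 hA00 hA01 hbig hacc
  rw [cE, cK, Fintype.card_fin, hm'] at key
  -- bounds of the factors
  have e1 : ((w : ℕ) : ℝ) ^ (2 * D * (t * d)) ≤ Real.exp (y / (64 * h ^ 2)) := by
    have h1 : ((w : ℕ) : ℝ) ^ (2 * D * (t * d)) =
        Real.exp (((2 * D * (t * d) : ℕ) : ℝ) * Real.log w) := by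
      rw [Real.exp_nat_mul, Real.exp_log hw0]
    rw [h1]
    apply Real.exp_le_exp.2
    push_cast
    rw [le_div_iff₀ (by positivity)]
    have h2 := log_le_two_sqrt w hw0
    have h3 : Real.sqrt w * Real.sqrt w = w := Real.mul_self_sqrt hw0.le
    have h4 : 256 * (D : ℝ) * h ^ 2 ≤ Real.sqrt w := Real.le_sqrt_of_sq_le hwR
    calc 2 * (D : ℝ) * (t * d) * Real.log w * (64 * h ^ 2)
        ≤ 2 * (D : ℝ) * (t * d) * (2 * Real.sqrt w) * (64 * h ^ 2) := by gcongr
      _ = (t * d) * (Real.sqrt w * (256 * (D : ℝ) * h ^ 2)) := by ring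
      _ ≤ (t * d) * (Real.sqrt w * Real.sqrt w) := by gcongr
      _ = y := by rw [h3, hy]
  have e2 : (T : ℝ) + 1 ≤ Real.exp (Real.log (T + 1)) := by
    rw [Real.exp_log (by positivity)]
  have hr0 : r ≠ 0 := by
    rw [hr]
    positivity
  have hQpos : 0 < Fintype.card Q := by
    by_contra hcon
    have h0 : Fintype.card Q = 0 := by omega
    rw [h0] at key
    simp only [Nat.cast_zero, zero_pow hr0, zero_mul, mul_zero] at key
    linarith
  have hQpos' : (0 : ℝ) < Fintype.card Q := by exact_mod_cast hQpos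
  have e3 : (Fintype.card Q : ℝ) ^ r * 2 ^ r ≤ Real.exp (y / (128 * h ^ 2)) := by
    have h1 : (Fintype.card Q : ℝ) ^ r * 2 ^ r = Real.exp (r * Real.log (2 * Fintype.card Q)) := by
      rw [Real.exp_nat_mul, Real.exp_log (by positivity), mul_pow, mul_comm]
    rw [h1]
    apply Real.exp_le_exp.2
    calc (r : ℝ) * Real.log (2 * Fintype.card Q) ≤ r * ((d : ℝ) / (1024 * h ^ 5)) :=
          mul_le_mul_of_nonneg_left hQ (by positivity)
      _ = _ := by
          rw [hrR, hy]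
          field_simp
          ring
  have e4 : ((t * w * d).choose (n' * d') : ℝ) ^ 2 ≤
      Real.exp (2 * (m + m * Real.log (16 * h ^ 2))) := by
    have h1 := choose_le_exp (t * w * d) (n' * d') (16 * h ^ 2) h16
      (by rw [← hmdef]; push_cast; refine le_trans (le_of_eq ?_) hm; rw [hy]; ring)
    rw [← hmdef] at h1
    have h2 : Real.exp (2 * (m + m * Real.log (16 * h ^ 2))) =
        (Real.exp (m + m * Real.log (16 * h ^ 2))) ^ 2 := by
      rw [← Real.exp_nat_mul]; norm_num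
    rw [h2]
    exact pow_le_pow_left₀ (by positivity) h1 2
  have hm0 : 0 < m := by
    by_contra hcon
    push Not at hcon
    have h1 : (16 * (h : ℝ) ^ 2) * m ≤ 0 := mul_nonpos_of_nonneg_of_nonpos h16.le hcon
    linarith
  have e5 : Real.exp (m + m / 2 * Real.log A0) ≤
      Real.exp (m + m / 2 * (-(8 + 4 * Real.log (16 * h ^ 2)))) := by
    apply Real.exp_le_exp.2
    have := mul_le_mul_of_nonneg_left hlogA0 (show 0 ≤ m / 2 by positivity)
    linarith
  have hprod : ((w : ℕ) : ℝ) ^ (2 * D * (t * d)) * ((T + 1) *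
      ((Fintype.card Q : ℝ) ^ r * 2 ^ r * ((t * w * d).choose (n' * d') : ℝ) ^ 2 *
      Real.exp (m + m / 2 * Real.log A0))) ≤
      Real.exp (y / (64 * h ^ 2)) * (Real.exp (Real.log (T + 1)) *
      (Real.exp (y / (128 * h ^ 2)) *
        Real.exp (2 * (m + m * Real.log (16 * h ^ 2))) *
        Real.exp (m + m / 2 * (-(8 + 4 * Real.log (16 * h ^ 2)))))) := by
    gcongr
  have hfin := key.trans hprod
  rw [← Real.exp_add, ← Real.exp_add, ← Real.exp_add, ← Real.exp_add, Real.one_le_exp_iff] at hfin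
  -- the exponent is negative
  have hexp : y / (64 * h ^ 2) + (Real.log (T + 1) +
      (y / (128 * h ^ 2) + 2 * (m + m * Real.log (16 * h ^ 2)) +
      (m + m / 2 * (-(8 + 4 * Real.log (16 * h ^ 2)))))) =
      y / (64 * h ^ 2) + Real.log (T + 1) + y / (128 * h ^ 2) - m := by ring
  rw [hexp] at hfin
  have hm2 : y / (16 * h ^ 2) ≤ m := by
    rw [div_le_iff₀ h16]; linarith
  have f2 : Real.log (T + 1) ≤ y / (64 * h ^ 2) := by
    obtain ⟨hy2, h7⟩ := auxy hh' hDR htR hdR hwR hw0 hy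
    have h1 : (T : ℝ) + 1 ≤ 2 * h * y := by linarith
    have h2 := log_le_two_sqrt (2 * h * y) (by positivity)
    have h3 := Real.log_le_log (show (0 : ℝ) < (T : ℝ) + 1 by positivity) h1
    refine (h3.trans h2).trans ?_
    rw [le_div_iff₀ (by positivity)]
    have h4 : 2 * Real.sqrt (2 * h * y) * (64 * h ^ 2) = 128 * h ^ 2 * Real.sqrt (2 * h * y) := by
      ring
    rw [h4]
    have h5 : 128 * (h : ℝ) ^ 2 * Real.sqrt (2 * h * y) =
        Real.sqrt ((128 * h ^ 2) ^ 2 * (2 * h * y)) := by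
      rw [Real.sqrt_mul (show (0 : ℝ) ≤ (128 * (h : ℝ) ^ 2) ^ 2 by positivity) (2 * h * y),
        Real.sqrt_sq (show (0 : ℝ) ≤ 128 * (h : ℝ) ^ 2 by positivity)]
    have h8 : y = Real.sqrt (y ^ 2) := (Real.sqrt_sq hy0.le).symm
    rw [h5, h8]
    apply Real.sqrt_le_sqrt
    rw [← h8]
    calc (128 * (h : ℝ) ^ 2) ^ 2 * (2 * h * y) = ((128 : ℝ) ^ 2 * 2 * (h : ℝ) ^ 5) * y := by ring
      _ ≤ y * y := mul_le_mul_of_nonneg_right h7 hy0.le
      _ = y ^ 2 := by ring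
  have hfin2 : y / (64 * h ^ 2) + y / (64 * h ^ 2) + y / (128 * h ^ 2) < y / (16 * h ^ 2) := by
    have h1 : (0 : ℝ) < y / (128 * h ^ 2) := by positivity
    have h2 : y / (64 * h ^ 2) = 2 * (y / (128 * h ^ 2)) := by
      field_simp; norm_num
    have h3 : y / (16 * h ^ 2) = 8 * (y / (128 * h ^ 2)) := by
      field_simp; norm_num
    rw [h2, h3]
    linarith
  linarith

end Pool.Agent.TS2
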