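import Mathlib
import Pool.Agent.Lib_helper21.TS.Final
import Pool.Agent.Lib_helper21.TS2.Num

/-!
# The trade-off for all space bounds
-/

namespace Pool.Agent.TS2

open Finset Equiv Pool.Agent.TS

/-- The lower bound for given parameters. -/
theorem bound_params (t d w D h : ℕ) (ht : 0 < t) (hh : 1 ≤ h) (hD : 1 ≤ D) (hd : 8 * h ^ 2 ≤ d)
    (hw : (256 * D ^ 2 * h ^ 2) ^ 2 ≤ w) (hβ : Real.log 4 < D * (bet h ^ 4 / 2) ^ 2)
    (htD : D ^ 2 ≤ t) (s : ℕ) (hs : 6 * (t * d * w) ≤ s) :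
    ∃ (n : ℕ) (δ : Fin n → ℕ), 2 * n + ∑ v, δ v = 2 * s ∧
      ∀ (Q : Type) [Fintype Q] (M : Machine n Q) (T : ℕ),
        Real.log (2 * Fintype.card Q) ≤ (d : ℝ) / (1024 * h ^ 5) →
        (∀ G : SimpleGraph (Fin n), (∀ v, (adjList G v).length = δ v) →
          (M.Accepts T G ↔ G.CliqueFree 3)) →
        (t * d * w : ℝ) * Real.logb 2 h < T := by
  classical
  have hβ0 : 0 < bet h := by unfold bet; positivity
  have hd0 : 0 < d := lt_of_lt_of_le (by positivity) hd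
  have hw0 : 0 < w := lt_of_lt_of_le (by positivity) hw
  obtain ⟨σ, hσ⟩ := exists_expander (Fin d) (by simpa using hd0) (bet h ^ 4 / 2) (by positivity) D hβ
  obtain ⟨τ, hτ⟩ := exists_expander (Fin w) (by simpa using hw0) (bet h ^ 4 / 2) (by positivity) D hβ
  set E : Fin d × Fin w → Fin d × Fin w → Prop := EP σ τ with hE
  set cE := (Finset.univ.filter fun p : (Fin d × Fin w) × (Fin d × Fin w) => E p.1 p.2).card
    with hcE
  have hcEle : cE ≤ t * d * w := by
    have h1 := EP_card σ τ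
    rw [Fintype.card_fin, Fintype.card_fin] at h1
    calc cE ≤ d * w * D ^ 2 := h1
      _ ≤ d * w * t := Nat.mul_le_mul_left _ htD
      _ = t * d * w := by ring
  set base := t * w + 2 * (d * w) + 2 * (t * d * w) + cE with hbase
  have hbase_le : base ≤ s := by
    refine le_trans ?_ hs
    have e1 : t * w ≤ t * d * w := by
      rw [mul_assoc]
      exact Nat.mul_le_mul_left _ (Nat.le_mul_of_pos_left _ hd0)
    have e2 : d * w ≤ t * d * w := by
      rw [mul_assoc]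
      exact Nat.le_mul_of_pos_left _ ht
    omega
  set pad := s - base with hpad
  refine ⟨t * w + (d * w + (d * w + pad)),
    fun v => dg (Equiv.refl (Fin t)) (Equiv.refl (Fin d)) (Equiv.refl (Fin w)) pad E
      ((enc (Equiv.refl (Fin t)) (Equiv.refl (Fin d)) (Equiv.refl (Fin w)) pad).symm v), ?_, ?_⟩
  · rw [(enc (Equiv.refl (Fin t)) (Equiv.refl (Fin d)) (Equiv.refl (Fin w)) pad).symm.sum_comp
      (fun x => dg (Equiv.refl (Fin t)) (Equiv.refl (Fin d)) (Equiv.refl (Fin w)) pad E x),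
      sum_dg, Fintype.card_fin, Fintype.card_fin, Fintype.card_fin, ← hcE]
    omega
  · intro Q _ M T hQ hM
    by_contra hT
    push Not at hT
    apply no_machine2 t d w (D ^ 2) h ht hh (Nat.one_le_pow _ _ hD) hd hw E ?_ ?_ ?_
      (toAM (Equiv.refl (Fin t)) (Equiv.refl (Fin d)) (Equiv.refl (Fin w)) E M) T hT hQ
    · intro z
      rw [← accepts_iff, hM, cliqueFree_iff]
      intro v
      obtain ⟨x, rfl⟩ := (enc (Equiv.refl (Fin t)) (Equiv.refl (Fin d)) (Equiv.refl (Fin w))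
        pad).surjective v
      rw [adjList_graph, length_lst]
      simp
    · intro V W hVW
      have h1 := EP_mix (by simpa using hw0) (show 0 < bet h ^ 4 / 2 by positivity) σ τ hσ hτ V W hVW
      rw [Fintype.card_fin, Fintype.card_fin] at h1
      refine h1.trans (le_of_eq ?_)
      ring
    · intro π κ u _
      exact EP_row σ τ π κ u
    · intro π κ v _
      exact EP_col σ τ π κ v

lemma log_le_logb {h : ℝ} (h1 : 1 ≤ h) : Real.log h ≤ Real.logb 2 h := by
  have h20 : 0 < Real.log 2 := Real.log_pos (by norm_num)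
  have h21 : Real.log 2 ≤ 1 := by
    have := Real.log_two_lt_d9; linarith
  rw [Real.logb, le_div_iff₀ h20]
  exact mul_le_of_le_one_right (Real.log_nonneg h1) h21

lemma succ_le_sq {h : ℝ} (h2 : 2 ≤ h) : h + 1 ≤ h ^ 2 := by
  nlinarith

lemma P_cond (h : ℕ) (hh : 1 ≤ h) :
    Real.log 4 < ((2 ^ 283 * h ^ 80 : ℕ) : ℝ) * (bet h ^ 4 / 2) ^ 2 := by
  have hh' : (1 : ℝ) ≤ h := by exact_mod_cast hh
  have hh0 : (0 : ℝ) < h := by linarith
  have h1 : ((2 ^ 283 * h ^ 80 : ℕ) : ℝ) * (bet h ^ 4 / 2) ^ 2 = 2 := by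
    unfold bet
    push_cast
    field_simp
  rw [h1]
  have h2 : Real.log 4 = 2 * Real.log 2 := by
    rw [show (4 : ℝ) = 2 ^ 2 by norm_num, Real.log_pow]
    norm_num
  rw [h2]
  have := Real.log_two_lt_d9
  linarith

lemma exists_h (x K : ℕ) (hK : 1 ≤ K) (hx : K * 2 ^ 489 ≤ x) :
    ∃ h : ℕ, 2 ≤ h ∧ K * h ^ 489 ≤ x ∧ x < K * (h + 1) ^ 489 := by
  obtain ⟨e, he⟩ : ∃ e : ℕ, e = 489 := ⟨_, rfl⟩
  rw [← he] at hx ⊢
  have he0 : e ≠ 0 := by omega
  clear he
  obtain ⟨g, hg⟩ : ∃ g, g = Nat.findGreatest (fun k => K * k ^ e ≤ x) x := ⟨_, rfl⟩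
  have h2 : 2 ≤ x := by
    refine le_trans ?_ hx
    calc 2 ≤ 2 ^ e := Nat.le_self_pow he0 2
      _ ≤ K * 2 ^ e := Nat.le_mul_of_pos_left _ hK
  have hg2 : 2 ≤ g := by
    rw [hg]
    exact Nat.le_findGreatest h2 hx
  have hg1 : K * g ^ e ≤ x := by
    rw [hg]
    exact Nat.findGreatest_spec (P := fun k => K * k ^ e ≤ x) (m := 2) h2 hx
  refine ⟨g, hg2, hg1, ?_⟩
  by_contra hcon
  push Not at hcon
  have h1 : g + 1 ≤ x := by
    refine le_trans ?_ hcon
    exact (Nat.le_self_pow he0 _).trans (Nat.le_mul_of_pos_left _ hK)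
  have h3 := Nat.le_findGreatest (P := fun k => K * k ^ e ≤ x) h1 hcon
  rw [← hg] at h3
  omega

/-- The trade-off for all space bounds, the constant being a variable. -/
theorem main_aux (P : ℕ) (hP : 1 ≤ P)
    (hcond : ∀ h : ℕ, 1 ≤ h → Real.log 4 < ((P * h ^ 80 : ℕ) : ℝ) * (bet h ^ 4 / 2) ^ 2) :
    ∃ c : ℝ, 0 < c ∧ ∃ C : ℕ, ∀ s S : ℕ, 1 ≤ S → C * S ≤ s →
    ∃ (n : ℕ) (δ : Fin n → ℕ), 2 * n + ∑ v, δ v = 2 * s ∧
      ∀ (Q : Type) [Fintype Q] (M : Machine n Q) (T : ℕ),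
        Real.logb 2 (Fintype.card Q) ≤ S →
        (∀ G : SimpleGraph (Fin n), (∀ v, (adjList G v).length = δ v) →
          (M.Accepts T G ↔ G.CliqueFree 3)) →
        c * s * Real.log (s / S) ≤ T := by
  obtain ⟨K, hK⟩ : ∃ K, K = 12288 * P ^ 2 * (256 * P ^ 2) ^ 2 := ⟨_, rfl⟩
  have hK1 : 1 ≤ K := by
    rw [hK]
    exact Nat.one_le_iff_ne_zero.2 (by positivity)
  have hKR : (1 : ℝ) ≤ K := by exact_mod_cast hK1
  have hlK : 0 ≤ Real.log K := Real.log_nonneg hKR
  refine ⟨1 / (12 * (Real.log K + 978)), by positivity, K * 2 ^ 489, ?_⟩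
  intro s S hS hCS
  have hS0 : 0 < S := hS
  have hSR : (1 : ℝ) ≤ S := by exact_mod_cast hS
  obtain ⟨h, hh2, hh1, hh3⟩ := exists_h (s / S) K hK1 ((Nat.le_div_iff_mul_le hS0).2 hCS)
  have hKs : K * h ^ 489 * S ≤ s := (Nat.le_div_iff_mul_le hS0).1 hh1
  have hsK : s < K * (h + 1) ^ 489 * S := by
    rw [Nat.div_lt_iff_lt_mul hS0] at hh3
    exact hh3
  clear hh1 hh3 hCS
  have hh : 1 ≤ h := by omega
  have hhR : (2 : ℝ) ≤ h := by exact_mod_cast hh2
  -- parameters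
  obtain ⟨d, hd⟩ : ∃ d, d = 2048 * h ^ 5 * S := ⟨_, rfl⟩
  obtain ⟨D, hD⟩ : ∃ D, D = P * h ^ 80 := ⟨_, rfl⟩
  obtain ⟨w, hw⟩ : ∃ w, w = (256 * D ^ 2 * h ^ 2) ^ 2 := ⟨_, rfl⟩
  have hDD1 : 1 ≤ D := by
    rw [hD]
    exact Nat.one_le_iff_ne_zero.2 (by positivity)
  have hd0 : 0 < d := by rw [hd]; positivity
  have hw0 : 0 < w := by rw [hw]; positivity
  have hd8 : 8 * h ^ 2 ≤ d := by
    rw [hd]
    have h1 : h ^ 2 ≤ h ^ 5 := Nat.pow_le_pow_right (by omega) (by norm_num)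
    calc 8 * h ^ 2 ≤ 2048 * h ^ 5 := Nat.mul_le_mul (by norm_num) h1
      _ ≤ _ := Nat.le_mul_of_pos_right _ hS0
  obtain ⟨t, ht⟩ : ∃ t, t = s / (6 * (d * w)) := ⟨_, rfl⟩
  have h6 : 0 < 6 * (d * w) := by positivity
  have htD : D ^ 2 ≤ t := by
    rw [ht, Nat.le_div_iff_mul_le h6]
    refine le_trans (le_of_eq ?_) hKs
    rw [hd, hw, hK, hD]
    ring
  have ht0 : 0 < t := lt_of_lt_of_le (by positivity) htD
  have hs1 : 6 * (t * d * w) ≤ s := by
    have h1 : t * (6 * (d * w)) ≤ s := by rw [ht]; exact Nat.div_mul_le_self _ _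
    calc 6 * (t * d * w) = t * (6 * (d * w)) := by ring
      _ ≤ s := h1
  have hs2 : s ≤ 12 * (t * d * w) := by
    have h1 : s < (t + 1) * (6 * (d * w)) := by
      rw [ht, mul_comm]; exact Nat.lt_mul_div_succ _ h6
    have h2 : t + 1 ≤ 2 * t := by omega
    calc s ≤ (t + 1) * (6 * (d * w)) := h1.le
      _ ≤ (2 * t) * (6 * (d * w)) := Nat.mul_le_mul_right _ h2
      _ = _ := by ring
  obtain ⟨n, δ, hnδ, hmain⟩ := bound_params t d w D h ht0 hh hDD1 hd8 hw.ge
    (by rw [hD]; exact hcond h hh) htD s hs1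
  refine ⟨n, δ, hnδ, fun Q _ M T hQ hM => ?_⟩
  have h20 : 0 < Real.log 2 := Real.log_pos (by norm_num)
  have h21 : Real.log 2 ≤ 1 := by
    have := Real.log_two_lt_d9; linarith
  have hspace : Real.log (2 * Fintype.card Q) ≤ (d : ℝ) / (1024 * h ^ 5) := by
    have h1 : (d : ℝ) / (1024 * h ^ 5) = 2 * S := by
      rw [hd]
      push_cast
      field_simp
      norm_num
    rw [h1]
    rcases Nat.eq_zero_or_pos (Fintype.card Q) with h0 | h0
    · rw [h0]
      simp only [Nat.cast_zero, mul_zero, Real.log_zero]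
      positivity
    · have h3 : (0 : ℝ) < Fintype.card Q := by exact_mod_cast h0
      rw [Real.log_mul (by norm_num) h3.ne']
      have h4 : Real.log (Fintype.card Q) = Real.logb 2 (Fintype.card Q) * Real.log 2 := by
        rw [Real.logb, div_mul_cancel₀ _ h20.ne']
      have h5 : Real.logb 2 (Fintype.card Q) * Real.log 2 ≤ S * 1 :=
        mul_le_mul hQ h21 h20.le (by positivity)
      rw [h4]
      linarith
  have hT := hmain Q M T hspace hM
  -- final estimate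
  have hsR : (s : ℝ) ≤ 12 * ((t : ℝ) * d * w) := by exact_mod_cast hs2
  have hlogb1 : 1 ≤ Real.logb 2 h := by
    rw [Real.le_logb_iff_rpow_le (by norm_num) (by linarith), Real.rpow_one]
    exact hhR
  have hlogb2 : Real.log h ≤ Real.logb 2 h := log_le_logb (by linarith)
  have hs0 : (0 : ℝ) < s := by
    have h1 : 0 < s := lt_of_lt_of_le (by positivity) hs1
    exact_mod_cast h1
  have hlog : Real.log ((s : ℝ) / S) ≤ (Real.log K + 978) * Real.logb 2 h := by
    have h1 : (s : ℝ) / S ≤ K * ((h : ℝ) ^ 2) ^ 489 := by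
      rw [div_le_iff₀ (by linarith)]
      have h2 : (s : ℝ) ≤ (K : ℝ) * ((h : ℝ) + 1) ^ 489 * S := by exact_mod_cast hsK.le
      refine h2.trans ?_
      apply mul_le_mul_of_nonneg_right _ (by positivity)
      apply mul_le_mul_of_nonneg_left _ (by positivity)
      exact pow_le_pow_left₀ (by positivity) (succ_le_sq hhR) _
    have h2 := Real.log_le_log (by positivity) h1
    rw [Real.log_mul (by positivity) (by positivity), Real.log_pow, Real.log_pow] at h2
    push_cast at h2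
    have h3 : Real.log K ≤ Real.log K * Real.logb 2 h := le_mul_of_one_le_right hlK hlogb1
    linarith
  have hpos : (0 : ℝ) < 12 * (Real.log K + 978) := by positivity
  rw [div_mul_eq_mul_div, one_mul, div_mul_eq_mul_div, div_le_iff₀ hpos]
  have hlogs0 : 0 ≤ Real.log ((s : ℝ) / S) := by
    apply Real.log_nonneg
    rw [one_le_div (by linarith)]
    have h1 : S ≤ s := by
      refine le_trans ?_ hKs
      exact Nat.le_mul_of_pos_left _ (by positivity)
    exact_mod_cast h1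
  calc (s : ℝ) * Real.log (s / S) ≤
      (12 * ((t : ℝ) * d * w)) * ((Real.log K + 978) * Real.logb 2 h) :=
        mul_le_mul hsR hlog hlogs0 (by positivity)
    _ = ((t * d * w : ℝ) * Real.logb 2 h) * (12 * (Real.log K + 978)) := by ring
    _ ≤ T * (12 * (Real.log K + 978)) := mul_le_mul_of_nonneg_right hT.le hpos.le

/-- The trade-off for all space bounds. -/
theorem main_bound : ∃ c : ℝ, 0 < c ∧ ∃ C : ℕ, ∀ s S : ℕ, 1 ≤ S → C * S ≤ s →
    ∃ (n : ℕ) (δ : Fin n → ℕ), 2 * n + ∑ v, δ v = 2 * s ∧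
      ∀ (Q : Type) [Fintype Q] (M : Machine n Q) (T : ℕ),
        Real.logb 2 (Fintype.card Q) ≤ S →
        (∀ G : SimpleGraph (Fin n), (∀ v, (adjList G v).length = δ v) →
          (M.Accepts T G ↔ G.CliqueFree 3)) →
        c * s * Real.log (s / S) ≤ T :=
  main_aux (2 ^ 283) Nat.one_le_two_pow P_cond

end Pool.Agent.TS2
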